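import Pool.Agent.Y661.HE.Stm

set_option autoImplicit false

/-! Project HE (helper661): asymptotics V. -/

namespace Pool.Agent.Y858.HE.AS5

open Filter Asymptotics Pool.Agent.Y661.HE

lemma tp {β : ℝ} (hβ : 0 < β) : Tendsto (fun d : ℕ => (d : ℝ) ^ β) atTop atTop :=
  (tendsto_rpow_atTop hβ).comp tendsto_natCast_atTop_atTop

lemma evp {k : ℝ} (hk : 0 < k) (C : ℝ) : ∀ᶠ d : ℕ in atTop, C ≤ (d : ℝ) ^ k :=
  (tp hk).eventually_ge_atTop C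

lemma evg {β : ℝ} (hβ : 0 < β) (k C : ℝ) (hC : 0 < C) :
    ∀ᶠ d : ℕ in atTop, C * (d : ℝ) ^ k ≤ Real.exp ((d : ℝ) ^ β) := by
  have h := (isLittleO_rpow_exp_pos_mul_atTop (k / β) one_pos).comp_tendsto (tp hβ)
  filter_upwards [h.bound (show (0 : ℝ) < 1 / C by positivity)] with d hd
  simp only [Function.comp, one_mul, Real.norm_eq_abs, Real.abs_exp] at hd
  have hd0 : (0 : ℝ) ≤ d := Nat.cast_nonneg _
  have e : ((d : ℝ) ^ β) ^ (k / β) = (d : ℝ) ^ k := by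
    rw [← Real.rpow_mul hd0]
    congr 1
    field_simp
  rw [e, abs_of_nonneg (Real.rpow_nonneg hd0 _)] at hd
  calc C * (d : ℝ) ^ k ≤ C * (1 / C * Real.exp ((d : ℝ) ^ β)) :=
        mul_le_mul_of_nonneg_left hd hC.le
    _ = _ := by field_simp

theorem as5 : S_AS5 := by
  intro β hβ hβ2
  filter_upwards [evg hβ 1 36 (by norm_num), evp hβ 3, eventually_ge_atTop 1] with d h1 h2 h3
  rw [Real.rpow_one] at h1
  obtain ⟨X, hX⟩ : ∃ X, X = Real.exp ((d : ℝ) ^ β) := ⟨_, rfl⟩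
  have hd1 : (1 : ℝ) ≤ d := by exact_mod_cast h3
  have hX2 : Real.exp (2 * (d : ℝ) ^ β) = X ^ 2 := by
    rw [hX, ← Real.exp_nat_mul]
    norm_num
  rw [← hX] at h1 ⊢
  rw [hX2]
  have hX36 : 36 ≤ X := by linarith
  have hX0 : 0 < X := by linarith
  refine ⟨?_, by nlinarith, ?_, ?_⟩
  · have h4 : 2 * Real.exp X + 1 ≤ Real.exp (X + 2) := by
      rw [Real.exp_add]
      have h5 : 1 ≤ Real.exp X := Real.one_le_exp hX0.le
      have h6 : (2 : ℝ) + 1 ≤ Real.exp 2 := Real.add_one_le_exp 2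
      nlinarith
    have h7 : (2 * Real.exp X + 1) ^ d ≤ Real.exp (d * (X + 2)) := by
      rw [Real.exp_nat_mul]
      exact pow_le_pow_left₀ (by positivity) h4 d
    calc (2 * Real.exp X + 1) ^ d * Real.exp (-X ^ 2) ≤
        Real.exp (d * (X + 2)) * Real.exp (-X ^ 2) :=
          mul_le_mul_of_nonneg_right h7 (Real.exp_pos _).le
      _ = Real.exp (d * (X + 2) + -X ^ 2) := by rw [Real.exp_add]
      _ ≤ Real.exp (-X) := by
          refine Real.exp_le_exp.2 ?_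
          nlinarith
  · unfold NN
    have h4 : ((2 : ℕ) : ℝ) < (d : ℝ) ^ β := by
      push_cast
      linarith
    have := Nat.lt_ceil.2 h4
    omega
  · rw [Real.exp_neg, inv_eq_one_div]
    refine one_div_le_one_div_of_le (by norm_num) ?_
    have := Real.add_one_le_exp X
    linarith

lemma six {b1 b2 : ℝ} (h1 : 0 < b1) (h2 : 0 < b2) : ∀ᶠ d : ℕ in atTop,
    Real.exp (2 * (d : ℝ) ^ b1) + 1 ≤ Real.exp (Real.exp ((d : ℝ) ^ b2)) := by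
  filter_upwards [evg h2 b1 3 (by norm_num), evp h1 1] with d h3 h4
  have h5 : 2 * (d : ℝ) ^ b1 + 1 ≤ Real.exp ((d : ℝ) ^ b2) := by linarith
  refine le_trans ?_ (Real.exp_le_exp.2 h5)
  rw [Real.exp_add]
  have h6 : 1 ≤ Real.exp (2 * (d : ℝ) ^ b1) := Real.one_le_exp (by positivity)
  have h7 : (1 : ℝ) + 1 ≤ Real.exp 1 := Real.add_one_le_exp 1
  nlinarith

theorem as6 : S_AS6 := by
  intro β β' hβ _ hβ' _
  filter_upwards [six hβ hβ, six hβ hβ', six hβ' hβ, six hβ' hβ'] with d h1 h2 h3 h4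
  refine ⟨⌈max (Real.exp (2 * (d : ℝ) ^ β)) (Real.exp (2 * (d : ℝ) ^ β'))⌉₊, ?_, ?_, ?_, ?_⟩
  · exact (le_max_left _ _).trans (Nat.le_ceil _)
  · have := Nat.ceil_lt_add_one (a := max (Real.exp (2 * (d : ℝ) ^ β))
      (Real.exp (2 * (d : ℝ) ^ β'))) (by positivity)
    rcases max_choice (Real.exp (2 * (d : ℝ) ^ β)) (Real.exp (2 * (d : ℝ) ^ β')) with h | h
    · rw [h] at this ⊢
      linarith
    · rw [h] at this ⊢
      linarith
  · exact (le_max_right _ _).trans (Nat.le_ceil _)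
  · have := Nat.ceil_lt_add_one (a := max (Real.exp (2 * (d : ℝ) ^ β))
      (Real.exp (2 * (d : ℝ) ^ β'))) (by positivity)
    rcases max_choice (Real.exp (2 * (d : ℝ) ^ β)) (Real.exp (2 * (d : ℝ) ^ β')) with h | h
    · rw [h] at this ⊢
      linarith
    · rw [h] at this ⊢
      linarith

theorem as7 : S_AS7 := by
  intro β hβ _ m
  filter_upwards [evg hβ (2 * m + 9 / 4) 4 (by norm_num),
    evg (show (0 : ℝ) < 1 / 20 by norm_num) (2 * m + 9 / 4) 4 (by norm_num),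
    evp (show (0 : ℝ) < 7 / 10 by norm_num) 480, evp (show (0 : ℝ) < 1 / 10 by norm_num) 4096,
    eventually_ge_atTop 1] with d h1 h2 h3 h4 h5 c v hc1 hc2 hv0 hv
  obtain ⟨x, hx⟩ : ∃ x : ℝ, x = d := ⟨_, rfl⟩
  rw [← hx] at h1 h2 h3 h4 hc1 hc2 ⊢
  have hx1 : 1 ≤ x := by rw [hx]; exact_mod_cast h5
  have hx0 : 0 < x := by linarith
  obtain ⟨N, hN⟩ : ∃ N : ℝ, N = NN (1 / 20) d := ⟨_, rfl⟩
  rw [← hN]
  have hN2 : N ≤ 2 * x ^ (1 / 20 : ℝ) := by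
    rw [hN, hx]
    unfold NN
    have h6 := Nat.ceil_lt_add_one (a := (d : ℝ) ^ (1 / 20 : ℝ)) (by positivity)
    have h7 : 1 ≤ (d : ℝ) ^ (1 / 20 : ℝ) := by
      refine Real.one_le_rpow ?_ (by norm_num)
      exact_mod_cast h5
    linarith
  have hN0 : 0 ≤ N := by rw [hN]; exact Nat.cast_nonneg _
  have hc0 : 0 ≤ c := le_trans (by positivity) hc1
  obtain ⟨A, hA⟩ : ∃ A : ℝ, A = x ^ (-(9 / 4) : ℝ) := ⟨_, rfl⟩
  have hA0 : 0 < A := by rw [hA]; positivity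
  rw [← hA]
  have hx3 : x ^ 3 = x ^ (3 : ℝ) := by
    rw [← Real.rpow_natCast]
    norm_num
  -- first term
  have t1 : 60 * v * N / x ^ 3 ≤ c ^ 2 * A / 4 := by
    have e1 : x ^ (1 / 20 : ℝ) / x ^ 3 = A * (x ^ (7 / 10 : ℝ))⁻¹ := by
      rw [hx3, hA, ← Real.rpow_sub hx0, ← Real.rpow_neg hx0.le, ← Real.rpow_add hx0]
      norm_num
    have e2 : (x ^ (7 / 10 : ℝ))⁻¹ ≤ 1 / 480 := by
      rw [inv_eq_one_div]
      exact one_div_le_one_div_of_le (by norm_num) h3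
    calc 60 * v * N / x ^ 3 ≤ 60 * c ^ 2 * (2 * x ^ (1 / 20 : ℝ)) / x ^ 3 := by gcongr
      _ = 120 * c ^ 2 * (x ^ (1 / 20 : ℝ) / x ^ 3) := by ring
      _ = 120 * c ^ 2 * (A * (x ^ (7 / 10 : ℝ))⁻¹) := by rw [e1]
      _ ≤ 120 * c ^ 2 * (A * (1 / 480)) := by gcongr
      _ = _ := by ring
  have t2 : 128 * c ^ 4 * N ^ 3 / x ^ 3 ≤ c ^ 2 * A / 4 := by
    have e1 : x ^ (1 / 2 : ℝ) * x ^ (3 / 20 : ℝ) / x ^ 3 = A * (x ^ (1 / 10 : ℝ))⁻¹ := by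
      rw [hx3, hA, ← Real.rpow_add hx0, ← Real.rpow_sub hx0, ← Real.rpow_neg hx0.le,
        ← Real.rpow_add hx0]
      norm_num
    have e2 : (x ^ (1 / 10 : ℝ))⁻¹ ≤ 1 / 4096 := by
      rw [inv_eq_one_div]
      exact one_div_le_one_div_of_le (by norm_num) h4
    have e3 : c ^ 2 ≤ x ^ (1 / 2 : ℝ) := by
      have := pow_le_pow_left₀ hc0 hc2 2
      rwa [← Real.rpow_natCast (x ^ (1 / 4 : ℝ)), ← Real.rpow_mul hx0.le,
        show (1 / 4 : ℝ) * ((2 : ℕ) : ℝ) = 1 / 2 by norm_num] at this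
    have e4 : (x ^ (1 / 20 : ℝ)) ^ 3 = x ^ (3 / 20 : ℝ) := by
      rw [← Real.rpow_natCast (x ^ (1 / 20 : ℝ)), ← Real.rpow_mul hx0.le]
      norm_num
    calc 128 * c ^ 4 * N ^ 3 / x ^ 3 = 128 * c ^ 2 * (c ^ 2 * N ^ 3 / x ^ 3) := by ring
      _ ≤ 128 * c ^ 2 * (x ^ (1 / 2 : ℝ) * (2 * x ^ (1 / 20 : ℝ)) ^ 3 / x ^ 3) := by gcongr
      _ = 1024 * c ^ 2 * (x ^ (1 / 2 : ℝ) * x ^ (3 / 20 : ℝ) / x ^ 3) := by
          rw [mul_pow, e4]; ring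
      _ = 1024 * c ^ 2 * (A * (x ^ (1 / 10 : ℝ))⁻¹) := by rw [e1]
      _ ≤ 1024 * c ^ 2 * (A * (1 / 4096)) := by gcongr
      _ = _ := by ring
  have t3 : ∀ b : ℝ, 4 * x ^ (2 * (m : ℝ) + 9 / 4) ≤ Real.exp (x ^ b) →
      Real.exp (-x ^ b) ≤ c ^ 2 * A / 4 := by
    intro b hb
    have e1 : x ^ (2 * (m : ℝ) + 9 / 4) = (x ^ m) ^ 2 * A⁻¹ := by
      rw [hA, ← Real.rpow_neg hx0.le, neg_neg, Real.rpow_add hx0, mul_comm (2 : ℝ) m,
        Real.rpow_mul hx0.le, Real.rpow_natCast]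
      norm_num
    have e2 : ((x ^ m)⁻¹) ^ 2 ≤ c ^ 2 := pow_le_pow_left₀ (by positivity) hc1 2
    rw [e1] at hb
    rw [Real.exp_neg]
    calc (Real.exp (x ^ b))⁻¹ ≤ (4 * ((x ^ m) ^ 2 * A⁻¹))⁻¹ := inv_anti₀ (by positivity) hb
      _ = ((x ^ m)⁻¹) ^ 2 * A / 4 := by
          rw [mul_inv, mul_inv, inv_inv, inv_pow]
          ring
      _ ≤ c ^ 2 * A / 4 := by gcongr
  have t4 := t3 β h1
  have t5 := t3 (1 / 20) h2
  have e5 : rr β d = Real.exp (-x ^ β) := by unfold rr; rw [hx]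
  have e6 : rr (1 / 20) d = Real.exp (-x ^ (1 / 20 : ℝ)) := by unfold rr; rw [hx]
  rw [e5, e6]
  linarith

end Pool.Agent.Y858.HE.AS5
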